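import Mathlib
import Pool.Agent.Y947.RL.Stm3

/-! Project RL (helper947), job EXP: either no quotient of two zeros is a root of unity, or the
polynomial is a polynomial in `X ^ e`. -/

set_option autoImplicit false

open Finset Polynomial Module

namespace Pool.Agent.Y994.RL.Exp

open Pool.Agent.Y947.RL

/-- averages of `φ (z ^ q)` -/
lemma avg_pow {φ : ℂ → ℝ}
    (hφ : IntervalIntegrable (fun u : ℝ => φ (circleMap 0 1 u)) MeasureTheory.volume 0 (2 * Real.pi))
    {q : ℕ} (hq : 0 < q) :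
    Real.circleAverage (fun z => φ (z ^ q)) 0 1 = Real.circleAverage φ 0 1 := by
  unfold Real.circleAverage
  congr 1
  have hq0 : (q : ℝ) ≠ 0 := by exact_mod_cast hq.ne'
  have h1 : ∀ θ : ℝ, φ (circleMap 0 1 θ ^ q) = (fun u => φ (circleMap 0 1 u)) (q * θ) := by
    intro θ
    dsimp only
    congr 1
    simp only [circleMap_zero, Complex.ofReal_one, one_mul, Complex.ofReal_mul, Complex.ofReal_natCast]
    rw [← Complex.exp_nat_mul]
    congr 1
    ring
  have h0 : ∫ θ in (0:ℝ)..2 * Real.pi, φ (circleMap 0 1 θ ^ q) =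
      ∫ θ in (0:ℝ)..2 * Real.pi, (fun u => φ (circleMap 0 1 u)) (q * θ) :=
    intervalIntegral.integral_congr fun θ _ => h1 θ
  rw [h0, intervalIntegral.integral_comp_mul_left (fun u => φ (circleMap 0 1 u)) hq0, mul_zero]
  have hper : Function.Periodic (fun u : ℝ => φ (circleMap 0 1 u)) (2 * Real.pi) := fun x => by
    dsimp only
    rw [periodic_circleMap 0 1 x]
  have h2 := hper.intervalIntegral_add_zsmul_eq (q : ℤ) 0
    (fun a b => hper.intervalIntegrable₀ Real.two_pi_pos.ne' hφ a b)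
  simp only [zero_add, natCast_zsmul, nsmul_eq_mul] at h2
  rw [h2, smul_eq_mul]
  field_simp

lemma mahler_expand {e : ℕ} (he : 0 < e) (g : ℂ[X]) :
    (expand ℂ e g).mahlerMeasure = g.mahlerMeasure := by
  by_cases hg : g = 0
  · simp [hg]
  have hg' : expand ℂ e g ≠ 0 := by
    rw [Ne, expand_eq_zero he]
    exact hg
  unfold mahlerMeasure
  rw [if_pos hg, if_pos hg']
  congr 1
  unfold logMahlerMeasure
  simp only [expand_eval]
  exact avg_pow (φ := fun z => Real.log ‖g.eval z‖) g.intervalIntegrable_mahlerMeasure he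

lemma mpc_expand {e : ℕ} (he : 0 < e) (g : ℂ[X]) : mpc (expand ℂ e g) = mpc g := by
  unfold mpc
  simp only [expand_eval]
  refine avg_pow (φ := fun z => Real.posLog ‖g.eval z‖) ?_ he
  apply Continuous.intervalIntegrable
  have h1 : Continuous (fun z : ℂ => Real.posLog ‖g.eval z‖) :=
    Real.continuous_posLog.comp (g.continuous.norm)
  exact h1.comp (continuous_circleMap 0 1)

lemma sp_coeff {A : Type*} [CommRing A] (ω : A) (F : ℤ[X][X]) (i : ℕ) :
    (sp ω F).coeff i = aeval ω (F.coeff i) := by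
  simp [sp, coeff_map]

lemma map_aeval {A B : Type*} [CommRing A] [CommRing B] (φ : A →+* B) (ω : A) (p : ℤ[X]) :
    φ (aeval ω p) = aeval (φ ω) p :=
  (Polynomial.aeval_algHom_apply (φ.toIntAlgHom) ω p).symm

lemma sp_map {A B : Type*} [CommRing A] [CommRing B] (φ : A →+* B) (ω : A) (F : ℤ[X][X]) :
    (sp ω F).map φ = sp (φ ω) F := by
  ext i
  rw [coeff_map, sp_coeff, sp_coeff, map_aeval]

lemma sp_monic {A : Type*} [CommRing A] (ω : A) {F : ℤ[X][X]} (h : F.Monic) : (sp ω F).Monic :=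
  h.map _

lemma sp_natDegree {A : Type*} [CommRing A] [Nontrivial A] (ω : A) {F : ℤ[X][X]} (h : F.Monic) :
    (sp ω F).natDegree = F.natDegree := h.natDegree_map _

lemma mem_QAb {z : ℂ} {n : ℕ} (hn : 0 < n) (h : z ^ n = 1) : z ∈ QAb :=
  IntermediateField.subset_adjoin ℚ _ ⟨n, hn, h⟩

lemma prim_QAb {ω : ℂ} {m : ℕ} (hm : 0 < m) (h : IsPrimitiveRoot ω m) :
    IsPrimitiveRoot (⟨ω, mem_QAb hm h.pow_eq_one⟩ : QAb) m := by
  refine IsPrimitiveRoot.of_map_of_injective (f := QAb.val) ?_ QAb.val.injective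
  exact h

/-- irreducibility over the smaller field -/
lemma irr_small {m : ℕ} {F : ℤ[X][X]} (h : Hyp3 m F) {ω : ℂ} (hω : IsPrimitiveRoot ω m) :
    Irreducible (sp (IntermediateField.AdjoinSimple.gen ℚ ω :
      IntermediateField.adjoin ℚ {ω}) F) := by
  have hle : IntermediateField.adjoin ℚ {ω} ≤ QAb := by
    rw [IntermediateField.adjoin_simple_le_iff]
    exact mem_QAb h.hm hω.pow_eq_one
  refine (sp_monic _ h.monic).irreducible_of_irreducible_map
    (IntermediateField.inclusion hle).toRingHom _ ?_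
  rw [sp_map]
  exact h.irr _ (prim_QAb h.hm hω)

/-- vanishing at one primitive root gives vanishing at all of them -/
lemma vanish {m : ℕ} (hm : 0 < m) {ω₀ : ℂ} (h₀ : IsPrimitiveRoot ω₀ m) {p : ℤ[X]}
    (hp : aeval ω₀ p = 0) {A : Type*} [CommRing A] [IsDomain A] {ω : A} (hω : IsPrimitiveRoot ω m) :
    aeval ω p = 0 := by
  have h1 : cyclotomic m ℤ ∣ p := by
    rw [cyclotomic_eq_minpoly h₀ hm]
    exact minpoly.isIntegrallyClosed_dvd (h₀.isIntegral hm) hp
  obtain ⟨q, rfl⟩ := h1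
  have h2 : aeval ω (cyclotomic m ℤ) = 0 := by
    have h3 := hω.isRoot_cyclotomic hm
    rw [IsRoot.def, ← map_cyclotomic_int, eval_map] at h3
    rw [aeval_def]
    exact h3
  rw [map_mul, h2, zero_mul]

theorem exp3 : T_EXP := by
  classical
  intro m F hF
  by_cases hq : ∀ ω : ℂ, IsPrimitiveRoot ω m → ∀ z w : ℂ,
    (sp ω F).eval z = 0 → (sp ω F).eval w = 0 → ∀ k : ℕ, 0 < k → z ^ k = w ^ k → z = w
  · exact Or.inl ⟨hF.hm, hF.monic, fun ω hω => irr_small hF hω, hF.h0, hF.hroot, hq⟩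
  right
  push Not at hq
  obtain ⟨ω₀, hω₀, z, w, hz, hw, k, hk, hzw, hne⟩ := hq
  have hm := hF.hm
  have hz0 : z ≠ 0 := by
    rintro rfl
    exact hF.h0 ω₀ hω₀ hz
  -- the quotient
  set ξ : ℂ := w / z with hξ
  have hξk : ξ ^ k = 1 := by
    rw [hξ, div_pow, ← hzw, div_self (pow_ne_zero _ hz0)]
  have hξ1 : ξ ≠ 1 := by
    intro h
    rw [hξ, div_eq_one_iff_eq hz0] at h
    exact hne h.symm
  set e := orderOf ξ with he
  have he0 : 0 < e := orderOf_pos_iff.2 (isOfFinOrder_iff_pow_eq_one.2 ⟨k, hk, hξk⟩)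
  have he1 : e ≠ 1 := fun h => hξ1 (orderOf_eq_one_iff.1 h)
  have hwz : w = ξ * z := by
    rw [hξ, div_mul_cancel₀ _ hz0]
  -- everything over the field of all roots of unity
  have hA := prim_QAb hm hω₀
  set ωA : QAb := ⟨ω₀, mem_QAb hm hω₀.pow_eq_one⟩ with hωA
  set ξA : QAb := ⟨ξ, mem_QAb hk hξk⟩ with hξA
  have hirr := hF.irr ωA hA
  have hmon := sp_monic ωA hF.monic
  have hmapC : (sp ωA F).map (algebraMap QAb ℂ) = sp ω₀ F := sp_map _ _ _
  have haz : aeval z (sp ωA F) = 0 := by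
    rw [aeval_def, ← eval_map, hmapC, hz]
  have haw : aeval w (sp ωA F) = 0 := by
    rw [aeval_def, ← eval_map, hmapC, hw]
  have hmp : sp ωA F = minpoly QAb w := minpoly.eq_of_irreducible_of_monic hirr haw hmon
  have hsc : aeval w ((sp ωA F).scaleRoots ξA) = 0 := by
    have := scaleRoots_aeval_eq_zero (r := ξA) haz
    rw [hwz]
    exact this
  have hdvd : sp ωA F ∣ (sp ωA F).scaleRoots ξA := by
    have := minpoly.dvd QAb w hsc
    rwa [← hmp] at this
  have heq : (sp ωA F).scaleRoots ξA = sp ωA F := by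
    refine eq_of_monic_of_dvd_of_natDegree_le hmon ((monic_scaleRoots_iff ξA).2 hmon) hdvd ?_
    rw [natDegree_scaleRoots]
  set D := F.natDegree with hD
  have hcoef : ∀ i, (sp ωA F).coeff i * ξA ^ (D - i) = (sp ωA F).coeff i := by
    intro i
    have := congrArg (fun f => f.coeff i) heq
    simp only [coeff_scaleRoots, sp_natDegree _ hF.monic] at this
    exact this
  have hcoef' : ∀ i, ¬ e ∣ D - i → aeval ω₀ (F.coeff i) = 0 := by
    intro i hi
    have h1 := hcoef i
    have h2 : (sp ωA F).coeff i * (ξA ^ (D - i) - 1) = 0 := by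
      rw [mul_sub, h1, mul_one, sub_self]
    rcases mul_eq_zero.1 h2 with h3 | h3
    · rw [← sp_coeff, ← hmapC, coeff_map, h3, map_zero]
    · exfalso
      apply hi
      apply orderOf_dvd_of_pow_eq_one
      have h4 : ξA ^ (D - i) = 1 := sub_eq_zero.1 h3
      have h5 := congrArg (algebraMap QAb ℂ) h4
      rw [map_pow, map_one] at h5
      exact h5
  have heD : e ∣ D := by
    by_contra hcon
    have h1 := hcoef' 0 (by simpa using hcon)
    apply hF.h0 ω₀ hω₀
    rw [← coeff_zero_eq_eval_zero, sp_coeff, h1]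
  have hvan : ∀ i, ¬ e ∣ i → aeval ω₀ (F.coeff i) = 0 := by
    intro i hi
    by_cases hiD : i ≤ D
    · apply hcoef'
      intro hc
      apply hi
      have := (Nat.dvd_sub_iff_right hiD heD).1 hc
      exact this
    · rw [coeff_eq_zero_of_natDegree_lt (by omega), map_zero]
  -- degree
  have hD0 : 0 < D := by
    rw [Nat.pos_iff_ne_zero]
    intro h0
    have h1 : sp ω₀ F = 1 := by
      have h2 := sp_monic ω₀ hF.monic
      refine h2.natDegree_eq_zero.1 ?_
      rw [sp_natDegree _ hF.monic]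
      exact h0
    rw [h1, eval_one] at hz
    exact one_ne_zero hz
  obtain ⟨D', hD'⟩ := heD
  have hD'0 : 0 < D' := by
    rcases Nat.eq_zero_or_pos D' with h | h
    · rw [h, mul_zero] at hD'
      omega
    · exact h
  have hDlt : D' < D := by
    rw [hD']
    have : 2 ≤ e := by omega
    nlinarith
  -- the polynomial G
  set G : ℤ[X][X] := contract e F with hG
  have hGc : ∀ j, G.coeff j = F.coeff (j * e) := fun j => coeff_contract he0.ne' F j
  have hGdeg : G.natDegree ≤ D' := by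
    rw [natDegree_le_iff_coeff_eq_zero]
    intro N hN
    rw [hGc]
    apply coeff_eq_zero_of_natDegree_lt
    rw [← hD, hD', mul_comm]
    exact Nat.mul_lt_mul_of_pos_right hN he0
  have hGmon : G.Monic := by
    refine monic_of_natDegree_le_of_coeff_eq_one D' hGdeg ?_
    rw [hGc, mul_comm, ← hD']
    exact hF.monic
  have hexp : ∀ {A : Type} [CommRing A] [IsDomain A] (ω : A), IsPrimitiveRoot ω m →
      sp ω F = expand A e (sp ω G) := by
    intro A _ _ ω hω
    ext i
    rw [coeff_expand he0, sp_coeff]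
    split_ifs with hi
    · rw [sp_coeff, hGc, Nat.div_mul_cancel hi]
    · exact vanish hm hω₀ (hvan i hi) hω
  have hGev : ∀ ω : ℂ, IsPrimitiveRoot ω m → ∀ y : ℂ, (sp ω F).eval y = (sp ω G).eval (y ^ e) := by
    intro ω hω y
    rw [hexp ω hω, expand_eval]
  refine ⟨G, ⟨hm, hGmon, ?_, ?_, ?_⟩, ?_, ?_⟩
  · intro ω hω
    have h1 := hF.irr ω hω
    rw [hexp ω hω] at h1
    exact of_irreducible_expand he0.ne' h1
  · intro ω hω h
    apply hF.h0 ω hω
    rw [hGev ω hω, zero_pow he0.ne']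
    exact h
  · intro ω hω y hy n hn hyn
    obtain ⟨x, hx⟩ := IsAlgClosed.exists_pow_nat_eq y he0
    refine hF.hroot ω hω x ?_ (e * n) (Nat.mul_pos he0 hn) ?_
    · rw [hGev ω hω, hx, hy]
    · rw [pow_mul, hx, hyn]
  · exact lt_of_le_of_lt hGdeg hDlt
  · intro ω hω
    rw [hexp ω hω]
    exact ⟨mahler_expand he0 _, mpc_expand he0 _⟩

end Pool.Agent.Y994.RL.Exp
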